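import Mathlib
import Pool.Agent.R261.Newton

/-!
# MP_db5e86_an: `R = a (1 + P / (Q P + P'))` and `R'` never share `a` in the plane if `Q ≠ 0`

For nonconstant `P` the Newton map `z - P / (Q P + P')` of `P e^{∫ Q}` has a parabolic fixed point
at infinity, and sharing says that all its critical values are fixed points; this contradicts the
Leau-Fatou theorem. For constant `P` one counts the zeros of `Q² + Q'`.
-/

set_option autoImplicit false

open Polynomial OnePoint

namespace Pool.Agent.Results.MP_db5e86_an.NoSharing

/-- All zeros of `P` are simple (so `P` is not the zero polynomial). -/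
def SimpleZeros (P : ℂ[X]) : Prop := P ≠ 0 ∧ ∀ z, P.eval z = 0 → P.rootMultiplicity z = 1

open Classical in
/-- The rational function `R = a (1 + P / (Q P + P'))`, a map from the plane to the sphere. For `P`
with simple zeros its poles are the zeros of `Q P + P'`. -/
noncomputable def R (a : ℂ) (P Q : ℂ[X]) (z : ℂ) : OnePoint ℂ :=
  if (Q * P + derivative P).eval z = 0 then ∞
  else ((a * (1 + P.eval z / (Q * P + derivative P).eval z) : ℂ) : OnePoint ℂ)

open Classical in
/-- The derivative of `R`, a map from the plane to the sphere. -/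
noncomputable def R' (a : ℂ) (P Q : ℂ[X]) (z : ℂ) : OnePoint ℂ :=
  if (Q * P + derivative P).eval z = 0 then ∞
  else ((deriv (fun w => a * (1 + P.eval w / (Q * P + derivative P).eval w)) z : ℂ) : OnePoint ℂ)

/-- `R` and `R'` share `a` in the plane. -/
def ShareInPlane (a : ℂ) (P Q : ℂ[X]) : Prop :=
  R a P Q ⁻¹' {(a : OnePoint ℂ)} = R' a P Q ⁻¹' {(a : OnePoint ℂ)}

/-- The derivative of the finite part. -/
lemma deriv_formula (a : ℂ) (P Q : ℂ[X]) {z : ℂ} (hz : (Q * P + derivative P).eval z ≠ 0) :
    deriv (fun w => a * (1 + P.eval w / (Q * P + derivative P).eval w)) z =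
      a * (1 - P.eval z * (Q * (Q * P + derivative P) + derivative (Q * P + derivative P)).eval z /
        (Q * P + derivative P).eval z ^ 2) := by
  set D := Q * P + derivative P with hD
  have h1 : HasDerivAt (fun w => a * (1 + P.eval w / D.eval w))
      (a * (((derivative P).eval z * D.eval z - P.eval z * (derivative D).eval z) /
        D.eval z ^ 2)) z :=
    (((P.hasDerivAt z).div (D.hasDerivAt z) hz).const_add 1).const_mul a
  rw [h1.deriv]
  have h2 : D.eval z = Q.eval z * P.eval z + (derivative P).eval z := by rw [hD]; simp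
  clear_value D
  rw [eval_add, eval_mul]
  field_simp
  linear_combination -(a * D.eval z) * h2

/-- The values `a` of `R` and `R'` at points which are not poles. -/
lemma share_iff {a : ℂ} (ha : a ≠ 0) {P Q : ℂ[X]} (h : ShareInPlane a P Q) {z : ℂ}
    (hz : (Q * P + derivative P).eval z ≠ 0)
    (hE : (Q * (Q * P + derivative P) + derivative (Q * P + derivative P)).eval z = 0) :
    P.eval z = 0 := by
  have h1 : z ∈ R' a P Q ⁻¹' {(a : OnePoint ℂ)} := by
    rw [Set.mem_preimage, Set.mem_singleton_iff, R', if_neg hz, deriv_formula a P Q hz, hE]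
    simp
  rw [← h, Set.mem_preimage, Set.mem_singleton_iff, R, if_neg hz, OnePoint.coe_eq_coe] at h1
  have h2 : a * (P.eval z / (Q * P + derivative P).eval z) = 0 := by linear_combination h1
  have h3 := (mul_eq_zero.1 h2).resolve_left ha
  exact (div_eq_zero_iff.1 h3).resolve_right hz

/-- `Q² + Q'` has a zero which is not a zero of `Q`. -/
lemma exists_zero {Q : ℂ[X]} (hQ : 0 < Q.natDegree) :
    ∃ z, (Q ^ 2 + derivative Q).eval z = 0 ∧ Q.eval z ≠ 0 := by
  by_contra hcon
  push Not at hcon
  have hQ0 : Q ≠ 0 := by rintro rfl; simp at hQ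
  set W := Q ^ 2 + derivative Q with hW
  have hdeg : W.natDegree = 2 * Q.natDegree := by
    have h1 : (Q ^ 2).natDegree = 2 * Q.natDegree := natDegree_pow Q 2
    rw [hW, natDegree_add_eq_left_of_natDegree_lt, h1]
    rw [h1]
    have := natDegree_derivative_lt (p := Q) (by omega)
    omega
  have hW0 : W ≠ 0 := by
    intro h
    rw [h, natDegree_zero] at hdeg
    omega
  have hle : W.roots ≤ Q.roots := by
    rw [Multiset.le_iff_count]
    intro z
    rw [count_roots, count_roots]
    by_cases hz : W.IsRoot z
    · have hQz : Q.IsRoot z := hcon z hz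
      have hm : 0 < Q.rootMultiplicity z := (rootMultiplicity_pos hQ0).2 hQz
      by_contra hlt
      push Not at hlt
      have h1 : (X - C z) ^ (Q.rootMultiplicity z + 1) ∣ W :=
        (pow_dvd_pow _ hlt).trans (pow_rootMultiplicity_dvd W z)
      have h2 : (X - C z) ^ (Q.rootMultiplicity z + 1) ∣ Q ^ 2 := by
        have : (X - C z) ^ (Q.rootMultiplicity z * 2) ∣ Q ^ 2 := by
          rw [pow_mul]
          exact pow_dvd_pow_of_dvd (pow_rootMultiplicity_dvd Q z) 2
        exact (pow_dvd_pow _ (by omega)).trans this
      have h3 : (X - C z) ^ (Q.rootMultiplicity z + 1) ∣ derivative Q := by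
        have := dvd_sub h1 h2
        rwa [hW, add_sub_cancel_left] at this
      have hd0 : derivative Q ≠ 0 := by
        intro h
        have := derivative_eq_zero.1 h
        omega
      have h4 := (le_rootMultiplicity_iff hd0).2 h3
      rw [derivative_rootMultiplicity_of_root hQz] at h4
      omega
    · rw [rootMultiplicity_eq_zero hz]
      exact Nat.zero_le _
  have h1 := Multiset.card_le_card hle
  rw [← (IsAlgClosed.splits W).natDegree_eq_card_roots, hdeg] at h1
  have h2 := card_roots' Q
  omega

theorem result : ∀ (a : ℂ) (P Q : ℂ[X]), a ≠ 0 → SimpleZeros P → Q ≠ 0 →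
    (¬ ∃ k, ∀ z, R a P Q z = k) → ¬ ShareInPlane a P Q := by
  intro a P Q ha ⟨hP0, hs⟩ hQ hR hshare
  rcases Nat.eq_zero_or_pos P.natDegree with hP | hP
  · -- constant `P`
    obtain ⟨p, rfl⟩ : ∃ p, P = C p := ⟨P.coeff 0, eq_C_of_natDegree_eq_zero hP⟩
    have hp : p ≠ 0 := by rintro rfl; simp at hP0
    rcases Nat.eq_zero_or_pos Q.natDegree with hQd | hQd
    · obtain ⟨c, rfl⟩ : ∃ c, Q = C c := ⟨Q.coeff 0, eq_C_of_natDegree_eq_zero hQd⟩
      apply hR
      refine ⟨R a (C p) (C c) 0, fun z => ?_⟩
      simp [R]
    · obtain ⟨z, hz1, hz2⟩ := exists_zero hQd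
      have h1 : (Q * C p + derivative (C p)).eval z ≠ 0 := by
        simp [hz2, hp]
      have h2 : (Q * (Q * C p + derivative (C p)) + derivative (Q * C p + derivative (C p))).eval z
          = 0 := by
        rw [eval_add, eval_pow] at hz1
        simp only [derivative_C, add_zero, derivative_mul, mul_zero, eval_add, eval_mul, eval_C]
        linear_combination p * hz1
      have h3 := share_iff ha hshare h1 h2
      simp [hp] at h3
  · refine Pool.Agent.R261.Newton.newton_false P Q hP hQ (fun z hz h0 => ?_)
      (fun z hz hE => share_iff ha hshare hz hE)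
    have h1 := (one_lt_rootMultiplicity_iff_isRoot hP0 (t := z)).2 ⟨hz, h0⟩
    have h2 := hs z hz
    omega

end Pool.Agent.Results.MP_db5e86_an.NoSharing
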